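import Mathlib
import Pool.Agent.H242R3.ES.Stmts
import Pool.Agent.H242R3.ES.StmtsG
import Pool.Agent.H242R3.ES.StmtsN

/-! Project H242-ES, task N3 (adapted from the proof of L3 by helper531). -/

set_option autoImplicit false
set_option maxHeartbeats 4000000

open MeasureTheory Finset
open scoped Classical

namespace Pool.Agent.H896R3.ESN3

open Pool.Agent.H242R3.ES

variable {ι : Type} (q : ι → ι → ℝ)

/-- the quadratic form -/
noncomputable def qf (r : Finset ι) (F : ι → ℝ) (x : r → ℝ) : ℝ :=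
  ∑ i : r, ∑ k : r, x i * gq q F i k * x k

lemma ex_eq (r : Finset ι) (F : ι → ℝ) (x : r → ℝ) : exq q r F x = Real.exp (-Real.pi * qf q r F x) := rfl

lemma qf_pos {r : Finset ι} {F : ι → ℝ} (h : (GMq q r F).PosDef) (x : r → ℝ) (hx : x ≠ 0) :
    0 < qf q r F x := by
  have h1 := h.dotProduct_mulVec_pos hx
  have h2 : star x ⬝ᵥ (GMq q r F).mulVec x = qf q r F x := by
    simp only [dotProduct, Matrix.mulVec, Pi.star_apply, star_trivial, qf, GMq, Finset.mul_sum, mul_assoc]
  rwa [h2] at h1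

lemma qf_cont (r : Finset ι) (F : ι → ℝ) : Continuous (qf q r F) := by
  unfold qf
  fun_prop

lemma qf_smul (r : Finset ι) (F : ι → ℝ) (a : ℝ) (x : r → ℝ) : qf q r F (a • x) = a ^ 2 * qf q r F x := by
  unfold qf
  simp only [Finset.mul_sum, Pi.smul_apply, smul_eq_mul]
  refine Finset.sum_congr rfl fun i _ => Finset.sum_congr rfl fun k _ => ?_
  ring

lemma qf_lower {r : Finset ι} {F : ι → ℝ} (h : (GMq q r F).PosDef) :
    ∃ c : ℝ, 0 < c ∧ ∀ x : r → ℝ, c * ∑ i, x i ^ 2 ≤ qf q r F x := by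
  set K : Set (r → ℝ) := {x | ∑ i, x i ^ 2 = 1} with hK
  have hsq : ∀ (x : r → ℝ) (i : r), x i ^ 2 ≤ ∑ i, x i ^ 2 := fun x i =>
    Finset.single_le_sum (f := fun i => x i ^ 2) (fun i _ => sq_nonneg _) (Finset.mem_univ i)
  have hKc : IsCompact K := by
    refine IsCompact.of_isClosed_subset (isCompact_Icc (a := fun _ : r => (-1 : ℝ)) (b := fun _ => 1)) ?_ ?_
    · exact isClosed_eq (by fun_prop) continuous_const
    · intro x hx
      have h1 : ∀ i, |x i| ≤ 1 := fun i => by
        rw [← sq_le_one_iff_abs_le_one]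
        exact (hsq x i).trans (le_of_eq hx)
      exact ⟨fun i => (abs_le.1 (h1 i)).1, fun i => (abs_le.1 (h1 i)).2⟩
  have hzero : ∀ x : r → ℝ, ∑ i, x i ^ 2 = 0 → x = 0 := by
    intro x hx
    funext i
    have h1 := hsq x i
    rw [hx] at h1
    exact pow_eq_zero_iff (two_ne_zero) |>.1 (le_antisymm h1 (sq_nonneg _))
  have hq0 : qf q r F 0 = 0 := by simp [qf]
  have hnn : ∀ x : r → ℝ, 0 ≤ ∑ i, x i ^ 2 := fun x => Finset.sum_nonneg fun i _ => sq_nonneg _
  have hscale : ∀ x : r → ℝ, 0 < ∑ i, x i ^ 2 → ((Real.sqrt (∑ i, x i ^ 2))⁻¹ • x) ∈ K := by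
    intro x hx
    show ∑ i, ((Real.sqrt (∑ i, x i ^ 2))⁻¹ • x) i ^ 2 = 1
    simp only [Pi.smul_apply, smul_eq_mul, mul_pow]
    rw [← Finset.mul_sum, inv_pow, Real.sq_sqrt hx.le, inv_mul_cancel₀ hx.ne']
  rcases K.eq_empty_or_nonempty with hE | hne
  · refine ⟨1, one_pos, fun x => ?_⟩
    rcases (hnn x).eq_or_lt with h0 | h0
    · rw [hzero x h0.symm, hq0]; simp
    · exact absurd (hscale x h0) (by rw [hE]; exact Set.notMem_empty _)
  · obtain ⟨x0, hx0, hmin⟩ := hKc.exists_isMinOn hne (qf_cont q r F).continuousOn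
    have hx0' : x0 ≠ 0 := by
      rintro rfl
      have : (∑ i : r, ((0 : r → ℝ) i) ^ 2) = 1 := hx0
      simp at this
    refine ⟨qf q r F x0, qf_pos q h x0 hx0', fun x => ?_⟩
    rcases (hnn x).eq_or_lt with h0 | h0
    · rw [hzero x h0.symm, hq0]; simp
    · have h1 := hmin (hscale x h0)
      simp only [Set.mem_ofPred_eq] at h1
      rw [qf_smul, inv_pow, Real.sq_sqrt h0.le] at h1
      rw [mul_comm]
      calc (∑ i, x i ^ 2) * qf q r F x0 ≤ (∑ i, x i ^ 2) * ((∑ i, x i ^ 2)⁻¹ * qf q r F x) :=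
            mul_le_mul_of_nonneg_left h1 h0.le
        _ = qf q r F x := by rw [← mul_assoc, mul_inv_cancel₀ h0.ne', one_mul]

lemma ex_cont (r : Finset ι) (F : ι → ℝ) : Continuous (exq q r F) := by
  have h1 := qf_cont q r F
  have h2 : exq q r F = fun x => Real.exp (-Real.pi * qf q r F x) := rfl
  rw [h2]
  fun_prop

lemma integ {r : Finset ι} {F : ι → ℝ} (g : ι → ℝ) (h : (GMq q r F).PosDef) :
    Integrable (fun x : r → ℝ => (∑ i : r, g i * x i) * exq q r F x) := by
  obtain ⟨c, hc, hq⟩ := qf_lower q h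
  set a : ℝ := Real.pi * c / 2 with ha
  have ha0 : 0 < a := by positivity
  have h1 : Integrable (fun x : r → ℝ => ∏ i : r, Real.exp (-a * x i ^ 2)) :=
    Integrable.fintype_prod (f := fun (_ : r) (t : ℝ) => Real.exp (-a * t ^ 2))
      fun _ => integrable_exp_neg_mul_sq ha0
  refine Integrable.mono' (h1.const_mul ((∑ i : r, |g i|) * (1 + 1 / a))) ?_ (Filter.Eventually.of_forall fun x => ?_)
  · refine Continuous.aestronglyMeasurable ?_
    have := ex_cont q r F
    fun_prop
  · have e1 : ∏ i : r, Real.exp (-a * x i ^ 2) = Real.exp (-a * ∑ i, x i ^ 2) := by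
      rw [← Real.exp_sum, Finset.mul_sum]
    have e2 : exq q r F x ≤ Real.exp (-(2 * a) * ∑ i, x i ^ 2) := by
      rw [ex_eq q]
      apply Real.exp_le_exp.2
      have := hq x
      have h3 : Real.pi * (c * ∑ i, x i ^ 2) ≤ Real.pi * qf q r F x := mul_le_mul_of_nonneg_left this Real.pi_pos.le
      rw [ha]
      nlinarith
    have e3 : ∀ t : ℝ, |t| ≤ (1 + 1 / a) * Real.exp (a * t ^ 2) := by
      intro t
      have h3 := Real.add_one_le_exp (a * t ^ 2)
      have h4 : |t| ≤ 1 + t ^ 2 := by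
        have : 0 ≤ (|t| - 1) ^ 2 := sq_nonneg _
        nlinarith [sq_abs t, abs_nonneg t]
      have h5 : (1 + 1 / a) * (a * t ^ 2 + 1) = 1 + t ^ 2 + (a * t ^ 2 + 1 / a) := by
        field_simp
        ring
      have h6 : 0 ≤ a * t ^ 2 + 1 / a := by positivity
      calc |t| ≤ (1 + 1 / a) * (a * t ^ 2 + 1) := by rw [h5]; linarith
        _ ≤ _ := mul_le_mul_of_nonneg_left h3 (by positivity)
    have e4 : ∀ i : r, |x i| ≤ (1 + 1 / a) * Real.exp (a * ∑ i, x i ^ 2) := by
      intro i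
      refine (e3 (x i)).trans ?_
      gcongr
      exact Finset.single_le_sum (f := fun i => x i ^ 2) (fun i _ => sq_nonneg _) (Finset.mem_univ i)
    have e5 : |∑ i : r, g i * x i| ≤ (∑ i : r, |g i|) * ((1 + 1 / a) * Real.exp (a * ∑ i, x i ^ 2)) := by
      refine (Finset.abs_sum_le_sum_abs _ _).trans ?_
      rw [Finset.sum_mul]
      refine Finset.sum_le_sum fun i _ => ?_
      rw [abs_mul]
      exact mul_le_mul_of_nonneg_left (e4 i) (abs_nonneg _)
    rw [norm_mul, Real.norm_eq_abs, Real.norm_eq_abs, e1, abs_of_pos (show 0 < exq q r F x from Real.exp_pos _)]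
    calc |∑ i : r, g i * x i| * exq q r F x ≤ ((∑ i : r, |g i|) * ((1 + 1 / a) * Real.exp (a * ∑ i, x i ^ 2))) *
          Real.exp (-(2 * a) * ∑ i, x i ^ 2) := by
          refine mul_le_mul e5 e2 (Real.exp_pos _).le ?_
          positivity
      _ = (∑ i : r, |g i|) * (1 + 1 / a) * (Real.exp (a * ∑ i, x i ^ 2) * Real.exp (-(2 * a) * ∑ i, x i ^ 2)) := by ring
      _ = _ := by
        rw [← Real.exp_add]
        congr 2
        ring

lemma orth_meas (r : Finset ι) : MeasurableSet (orth r) := by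
  have : orth r = Set.Ici (0 : r → ℝ) := by
    ext x; exact Iff.rfl
  rw [this]
  exact isClosed_Ici.measurableSet

lemma II_nonneg (r : Finset ι) (F g : ι → ℝ) (hg : ∀ i ∈ r, 0 ≤ g i) : 0 ≤ IIq q r F g := by
  refine setIntegral_nonneg (orth_meas r) fun x hx => ?_
  refine mul_nonneg (Finset.sum_nonneg fun i _ => mul_nonneg (hg i i.2) (hx i)) (Real.exp_pos _).le

lemma II_pos (r : Finset ι) (F g : ι → ℝ) (hg : ∀ i ∈ r, 0 ≤ g i) (h : (GMq q r F).PosDef)
    (i0 : ι) (hi0 : i0 ∈ r) (hpos : 0 < g i0) : 0 < IIq q r F g := by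
  unfold IIq
  rw [setIntegral_pos_iff_support_of_nonneg_ae]
  · have hsub : {x : r → ℝ | ∀ i, 0 < x i} ⊆
        (Function.support (fun x : r → ℝ => (∑ i : r, g i * x i) * exq q r F x)) ∩ orth r := by
      intro x hx
      refine ⟨?_, fun i => (hx i).le⟩
      rw [Function.mem_support]
      refine mul_ne_zero (ne_of_gt ?_) (Real.exp_pos _).ne'
      exact Finset.sum_pos' (fun i _ => mul_nonneg (hg i i.2) (hx i).le)
        ⟨⟨i0, hi0⟩, Finset.mem_univ _, mul_pos hpos (hx _)⟩
    refine lt_of_lt_of_le ?_ (measure_mono hsub)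
    refine IsOpen.measure_pos volume ?_ ⟨fun _ => 1, fun _ => one_pos⟩
    have : {x : r → ℝ | ∀ i, 0 < x i} = Set.pi Set.univ (fun _ => Set.Ioi (0 : ℝ)) := by
      ext x; simp
    rw [this]
    exact isOpen_set_pi Set.finite_univ fun _ _ => isOpen_Ioi
  · refine (ae_restrict_iff' (orth_meas r)).2 (Filter.Eventually.of_forall fun x hx => ?_)
    exact mul_nonneg (Finset.sum_nonneg fun i _ => mul_nonneg (hg i i.2) (hx i)) (Real.exp_pos _).le
  · exact (integ q g h).integrableOn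

lemma gm_lin (F F' : ι → ℝ) (t : ℝ) (i k : ι) :
    gq q (fun x => F x + t * (F' x - F x)) i k = (1 - t) * gq q F i k + t * gq q F' i k := by
  unfold gq
  ring

lemma pd_lin {s : Finset ι} {F F' : ι → ℝ} (h : (GMq q s F).PosDef) (h' : (GMq q s F').PosDef) {t : ℝ}
    (h0 : 0 ≤ t) (h1 : t ≤ 1) : (GMq q s (fun x => F x + t * (F' x - F x))).PosDef := by
  have e : GMq q s (fun x => F x + t * (F' x - F x)) = (1 - t) • GMq q s F + t • GMq q s F' := by
    ext i k
    exact gm_lin q F F' t i k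
  rw [e]
  rcases h0.eq_or_lt with h2 | h2
  · subst h2
    simpa using h
  · exact Matrix.PosDef.posSemidef_add (h.posSemidef.smul (by linarith)) (h'.smul h2)

lemma conv_pos {X X' t : ℝ} (hX : 0 < X) (hX' : 0 < X') (h0 : 0 ≤ t) (h1 : t ≤ 1) :
    0 < (1 - t) * X + t * X' := by
  rcases h0.eq_or_lt with h2 | h2
  · subst h2
    simpa using hX
  · have := mul_pos h2 hX'
    have := mul_nonneg (by linarith : 0 ≤ 1 - t) hX.le
    linarith

lemma kr_eq (r s : Finset ι) (F : ι → ℝ) (j : ι) (hs : insert j r = s) (hj : j ∈ s) :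
    kapq q s F ⟨j, hj⟩ = kr q r j F := by
  subst hs
  rfl

lemma flag_pos {m : ℕ} (hm : 2 ≤ m) {S : Finset (Finset ι)} (hS : PM m S) (F g : ι → ℝ)
    (hpd : ∀ s ∈ S, (GMq q s F).PosDef)
    (hκ : ∀ (r : Finset ι) (j j' : ι), r.Nonempty → j ∉ r → j' ∉ r → j ≠ j' → insert j r ∈ S →
      insert j' r ∈ S → 0 ≤ kr q r j F + kr q r j' F)
    (hg : ∀ s ∈ S, ∀ k ∈ s, 0 ≤ g k) (r0 : Finset ι) (j0 j0' : ι) (hj0 : j0 ∉ r0) (hj0' : j0' ∉ r0)
    (hne0 : j0 ≠ j0') (hs0 : insert j0 r0 ∈ S) (hs0' : insert j0' r0 ∈ S)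
    (hstr : 0 < kr q r0 j0 F + kr q r0 j0' F) (k0 : ι)
    (hk0 : k0 ∈ r0) (h0 : 0 < g k0) : 0 < ∑ s ∈ S, ∑ j : s, kapq q s F j * IIq q (s.erase j) F g := by
  set P : Finset (Σ s : Finset ι, s) := S.sigma (fun s => Finset.univ) with hP
  set f : (Σ s : Finset ι, s) → ℝ := fun p => kapq q p.1 F p.2 * IIq q (p.1.erase p.2) F g with hf
  set ρ : (Σ s : Finset ι, s) → Finset ι := fun p => p.1.erase p.2 with hρ
  have hsum : ∑ s ∈ S, ∑ j : s, kapq q s F j * IIq q (s.erase j) F g = ∑ p ∈ P, f p := by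
    rw [hP, Finset.sum_sigma]
  rw [hsum, ← Finset.sum_fiberwise_of_maps_to (s := P) (t := P.image ρ) (g := ρ)
    (fun p hp => Finset.mem_image_of_mem ρ hp) f]
  -- the pairs
  have key : ∀ r ∈ P.image ρ, ∃ j j' : ι, r.Nonempty ∧ j ∉ r ∧ j' ∉ r ∧ j ≠ j' ∧ insert j r ∈ S ∧
      insert j' r ∈ S ∧ (∀ i, i ∉ r → insert i r ∈ S → i = j ∨ i = j') ∧
      ∑ p ∈ P with ρ p = r, f p = (kr q r j F + kr q r j' F) * IIq q r F g := by
    intro r hr
    obtain ⟨⟨s, j, hj⟩, hp, rfl⟩ := Finset.mem_image.1 hr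
    have hsS : s ∈ S := (Finset.mem_sigma.1 hp).1
    obtain ⟨s', ⟨hs', hne, hsub⟩, huniq⟩ := hS.two s hsS j hj
    show ∃ i i' : ι, (s.erase j).Nonempty ∧ i ∉ s.erase j ∧ i' ∉ s.erase j ∧ i ≠ i' ∧
      insert i (s.erase j) ∈ S ∧ insert i' (s.erase j) ∈ S ∧
      (∀ l, l ∉ s.erase j → insert l (s.erase j) ∈ S → l = i ∨ l = i') ∧
      ∑ p ∈ P with ρ p = s.erase j, f p =
        (kr q (s.erase j) i F + kr q (s.erase j) i' F) * IIq q (s.erase j) F g
    set r := s.erase j with hr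
    have hcs := hS.card s hsS
    have hcs' := hS.card s' hs'
    have hcr : r.card = m - 1 := by rw [hr, Finset.card_erase_of_mem hj, hcs]
    have hs_eq : insert j r = s := Finset.insert_erase hj
    have hjr : j ∉ r := Finset.notMem_erase j s
    have hcd : (s' \ r).card = 1 := by
      rw [Finset.card_sdiff_of_subset hsub, hcr, hcs']; omega
    obtain ⟨j', hj'⟩ := Finset.card_eq_one.1 hcd
    have hj'm : j' ∈ s' \ r := by rw [hj']; exact Finset.mem_singleton_self _
    have hj's : j' ∈ s' := (Finset.mem_sdiff.1 hj'm).1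
    have hj'r : j' ∉ r := (Finset.mem_sdiff.1 hj'm).2
    have hs'_eq : insert j' r = s' := by
      rw [← Finset.union_sdiff_of_subset hsub, hj', Finset.union_comm]
      rfl
    have hjj : j ≠ j' := by
      rintro rfl
      exact hne (hs'_eq.symm.trans hs_eq)
    have hrne : r.Nonempty := by
      rw [← Finset.card_pos, hcr]; omega
    have huni : ∀ l, l ∉ r → insert l r ∈ S → l = j ∨ l = j' := by
      intro l hl hlS
      by_cases hls : insert l r = s
      · left
        have h1 : l ∈ insert j r := by rw [hs_eq, ← hls]; exact Finset.mem_insert_self l r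
        exact (Finset.mem_insert.1 h1).resolve_right hl
      · right
        have h2 := huniq (insert l r) ⟨hlS, hls, Finset.subset_insert l r⟩
        have h1 : l ∈ insert j' r := by rw [hs'_eq, ← h2]; exact Finset.mem_insert_self l r
        exact (Finset.mem_insert.1 h1).resolve_right hl
    refine ⟨j, j', hrne, hjr, hj'r, hjj, by rw [hs_eq]; exact hsS, by rw [hs'_eq]; exact hs', huni, ?_⟩
    have hfib : P.filter (fun p => ρ p = r) = {(⟨s, ⟨j, hj⟩⟩ : Σ s : Finset ι, s), ⟨s', ⟨j', hj's⟩⟩} := by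
      ext ⟨t, i, hi⟩
      rw [Finset.mem_filter, Finset.mem_insert, Finset.mem_singleton]
      constructor
      · rintro ⟨ht, hti⟩
        have htS : t ∈ S := (Finset.mem_sigma.1 ht).1
        have hti' : t.erase i = r := hti
        have hir : i ∉ r := by rw [← hti']; exact Finset.notMem_erase i t
        by_cases hts : t = s
        · left
          subst hts
          have hij : i = j := by
            by_contra hij
            exact hir (Finset.mem_erase.2 ⟨hij, hi⟩)
          subst hij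
          rfl
        · right
          have hsubt : r ⊆ t := by rw [← hti']; exact Finset.erase_subset _ _
          have := huniq t ⟨htS, hts, hsubt⟩
          subst this
          have hij : i = j' := by
            have : i ∈ t \ r := Finset.mem_sdiff.2 ⟨hi, hir⟩
            rw [hj'] at this
            exact Finset.mem_singleton.1 this
          subst hij
          rfl
      · rintro (h | h)
        · rw [h]
          exact ⟨Finset.mem_sigma.2 ⟨hsS, Finset.mem_univ _⟩, rfl⟩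
        · rw [h]
          refine ⟨Finset.mem_sigma.2 ⟨hs', Finset.mem_univ _⟩, ?_⟩
          show s'.erase j' = r
          rw [← hs'_eq, Finset.erase_insert hj'r]
    rw [hfib, Finset.sum_pair]
    · have e2 : s'.erase j' = r := by rw [← hs'_eq, Finset.erase_insert hj'r]
      show kapq q s F ⟨j, hj⟩ * IIq q (s.erase j) F g + kapq q s' F ⟨j', hj's⟩ * IIq q (s'.erase j') F g = _
      rw [e2, ← hr, kr_eq q r s F j hs_eq hj, kr_eq q r s' F j' hs'_eq hj's]
      ring
    · intro h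
      exact hne (congrArg Sigma.fst h).symm
  apply Finset.sum_pos'
  · intro r hr
    obtain ⟨j, j', h1, h2, h3, h4, h5, h6, -, e⟩ := key r hr
    rw [e]
    refine mul_nonneg (hκ r j j' h1 h2 h3 h4 h5 h6) (II_nonneg q r F g fun i hi => ?_)
    exact hg _ h5 i (Finset.mem_insert_of_mem hi)
  · have hmem : r0 ∈ P.image ρ := by
      refine Finset.mem_image.2 ⟨⟨insert j0 r0, ⟨j0, Finset.mem_insert_self j0 r0⟩⟩,
        Finset.mem_sigma.2 ⟨hs0, Finset.mem_univ _⟩, ?_⟩
      show (insert j0 r0).erase j0 = r0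
      exact Finset.erase_insert hj0
    refine ⟨r0, hmem, ?_⟩
    obtain ⟨j, j', h1, h2, h3, h4, h5, h6, hun, e⟩ := key r0 hmem
    rw [e]
    have hkk : kr q r0 j F + kr q r0 j' F = kr q r0 j0 F + kr q r0 j0' F := by
      rcases hun j0 hj0 hs0 with h | h <;> rcases hun j0' hj0' hs0' with h' | h'
      · exact absurd (h.trans h'.symm) hne0
      · rw [h, h']
      · rw [h, h', add_comm]
      · exact absurd (h.trans h'.symm) hne0
    rw [hkk]
    refine mul_pos hstr (II_pos q _ F g (fun i hi => hg _ hs0 i (Finset.mem_insert_of_mem hi)) ?_ k0 hk0 h0)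
    have e2 : GMq q r0 F = (GMq q (insert j0 r0) F).submatrix
      (fun i => ⟨i.1, Finset.mem_insert_of_mem i.2⟩)
      (fun i => ⟨i.1, Finset.mem_insert_of_mem i.2⟩) := rfl
    rw [e2]
    refine (hpd _ hs0).submatrix ?_
    intro a b hab
    have hab' := congrArg (fun z : {x // x ∈ insert j0 r0} => z.1) hab
    exact Subtype.ext hab'

theorem t : TaskN3 := by
  intro hL1 hN2 ι q m hm S hS hqs hq0 F F' hF hF' hle hsum r0 j0 j0' hj0 hj0' hne0 hs0 hs0' hstr k0 hk0
  by_contra hne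
  have hlt : 0 < F' k0 - F k0 := by
    have := hle _ hs0 k0 (Finset.mem_insert_of_mem hk0)
    exact sub_pos.2 (lt_of_le_of_ne this hne)
  set g : ι → ℝ := fun x => F' x - F x with hg
  have hpdl : ∀ t : ℝ, 0 ≤ t → t ≤ 1 → ∀ s ∈ S, (GMq q s (fun i => F i + t * g i)).PosDef :=
    fun t h0 h1 s hs => pd_lin q (hF.pd s hs) (hF'.pd s hs) h0 h1
  have hD : ∀ t : ℝ, 0 ≤ t → t ≤ 1 → HasDerivAt (fun t : ℝ => ∑ s ∈ S, omq q s (fun i => F i + t * g i))
      (∑ s ∈ S, (-(1 / 2) * ∑ j : s, kapq q s (fun i => F i + t * g i) j *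
        IIq q (s.erase j) (fun i => F i + t * g i) g)) t := by
    intro t0 h0 h1
    refine HasDerivAt.fun_sum fun s hs => ?_
    have h2 := hL1 ι q s (fun i => F i + t0 * g i) g (hpdl t0 h0 h1 s hs)
    have h3 : HasDerivAt (fun t : ℝ => omq q s (fun i => F i + t0 * g i + (t - t0) * g i))
        (-(1 / 2) * ∑ j : s, kapq q s (fun i => F i + t0 * g i) j *
        IIq q (s.erase j) (fun i => F i + t0 * g i) g) t0 := by
      refine HasDerivAt.comp_sub_const (f := fun t : ℝ => omq q s (fun i => F i + t0 * g i + t * g i)) t0 t0 ?_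
      rw [sub_self]
      exact h2
    refine h3.congr_of_eventuallyEq (Filter.Eventually.of_forall fun t => ?_)
    show omq q s _ = omq q s _
    congr 1
    funext i
    ring
  obtain ⟨c, hc, hslope⟩ := exists_hasDerivAt_eq_slope (fun t : ℝ => ∑ s ∈ S, omq q s (fun i => F i + t * g i))
    (fun t => ∑ s ∈ S, (-(1 / 2) * ∑ j : s, kapq q s (fun i => F i + t * g i) j *
        IIq q (s.erase j) (fun i => F i + t * g i) g)) (zero_lt_one' ℝ)
    (fun t ht => (hD t ht.1 ht.2).continuousAt.continuousWithinAt) (fun t ht => hD t ht.1.le ht.2.le)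
  have e0 : ∑ s ∈ S, omq q s (fun i => F i + 0 * g i) = ∑ s ∈ S, omq q s F := by
    simp
  have e1 : ∑ s ∈ S, omq q s (fun i => F i + 1 * g i) = ∑ s ∈ S, omq q s F' := by
    simp [hg]
  simp only [e0, e1, hsum, sub_self, zero_div] at hslope
  have hN : ∀ (r : Finset ι) (j j' : ι), r.Nonempty → j ∉ r → j' ∉ r → j ≠ j' → insert j r ∈ S →
      insert j' r ∈ S →
      0 ≤ kr q r j (fun i => F i + c * g i) + kr q r j' (fun i => F i + c * g i) ∧
      (0 < kr q r j F + kr q r j' F →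
        0 < kr q r j (fun i => F i + c * g i) + kr q r j' (fun i => F i + c * g i)) := by
    intro r j j' hr hj hj' hjj hs hs'
    have h1 := hN2 ι q r j j' F F' hr hqs hq0 hj hj' (hF.pd _ hs) (hF.pd _ hs') (hF'.pd _ hs)
      (hF'.pd _ hs') (hF.conv r j j' hj hj' hjj hs hs') (hF'.conv r j j' hj hj' hjj hs hs') c
      hc.1.le hc.2
    have h2 : (fun i => (1 - c) * F i + c * F' i) = fun i => F i + c * g i := by
      funext i
      simp only [hg]
      ring
    rw [h2] at h1
    exact h1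
  have hpos := flag_pos q hm hS (fun i => F i + c * g i) g (hpdl c hc.1.le hc.2.le)
    (fun r j j' hr hj hj' hjj hs hs' => (hN r j j' hr hj hj' hjj hs hs').1)
    (fun s hs k hk => sub_nonneg.2 (hle s hs k hk)) r0 j0 j0' hj0 hj0' hne0 hs0 hs0'
    ((hN r0 j0 j0' ⟨k0, hk0⟩ hj0 hj0' hne0 hs0 hs0').2 hstr) k0 hk0 hlt
  rw [← Finset.mul_sum] at hslope
  linarith

end Pool.Agent.H896R3.ESN3
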